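import Mathlib
import Pool.Agent.Helper35.PI.St1

/-! Module R1 of project PI: the gradient inequality. -/

namespace Helper14.PI

open Helper35.PI
open scoped BigOperators

variable {n N : ℕ}

/-- triangle inequality in `ℓ²` for four families -/
theorem l2tri {V : Type} [NormedAddCommGroup V] [InnerProductSpace ℝ V] {n : ℕ}
    (x y z u : Fin n → V) (h : ∀ j, u j = x j + y j + z j) :
    √(∑ j, ‖u j‖ ^ 2) ≤ √(∑ j, ‖x j‖ ^ 2) + √(∑ j, ‖y j‖ ^ 2) + √(∑ j, ‖z j‖ ^ 2) := by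
  have hn : ∀ v : Fin n → V,
      √(∑ j, ‖v j‖ ^ 2) = ‖(WithLp.toLp 2 v : PiLp 2 (fun _ : Fin n => V))‖ := by
    intro v
    rw [PiLp.norm_eq_of_L2]
  rw [hn, hn, hn, hn]
  have hu : (WithLp.toLp 2 u : PiLp 2 (fun _ : Fin n => V))
      = WithLp.toLp 2 x + WithLp.toLp 2 y + WithLp.toLp 2 z := by
    ext j
    simp [h j]
  rw [hu]
  exact norm_add₃_le

theorem sqrt_sum_smul {V : Type} [NormedAddCommGroup V] [InnerProductSpace ℝ V] {n : ℕ}
    (c : ℝ) (hc : 0 ≤ c) (x : Fin n → V) :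
    √(∑ j, ‖c • x j‖ ^ 2) = c * √(∑ j, ‖x j‖ ^ 2) := by
  have : ∑ j, ‖c • x j‖ ^ 2 = c ^ 2 * ∑ j, ‖x j‖ ^ 2 := by
    rw [Finset.mul_sum]
    refine Finset.sum_congr rfl fun j _ => ?_
    rw [norm_smul, mul_pow, Real.norm_eq_abs, sq_abs]
  rw [this, Real.sqrt_mul (sq_nonneg c), Real.sqrt_sq hc]

theorem sqwq (m : Fin n → Fin n → ℝ) (θ : Fin n → Fin n → Fin n → EE N) :
    Helper35.PI.sq m * wq θ = ∑ k, ∑ i, ∑ j, m i j ^ 2 * ‖wv θ k‖ ^ 2 := by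
  unfold Helper35.PI.sq wq
  rw [Finset.mul_sum]
  refine Finset.sum_congr rfl fun k _ => ?_
  rw [Finset.sum_mul]
  refine Finset.sum_congr rfl fun i _ => ?_
  rw [Finset.sum_mul]

/-- the modified tensor `U~` -/
noncomputable def Um (l : ℝ) (m : Fin n → Fin n → ℝ) (B : Fin n → Fin n → EE N)
    (τ : Fin n → Fin n → Fin n → ℝ) (θ : Fin n → Fin n → Fin n → EE N) (k i j : Fin n) : EE N :=
  Ut B τ θ k i j - ((1 - l) * m i j) • wv θ k

/-- the modified tensor `V~` -/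
noncomputable def Vm (l : ℝ) (m : Fin n → Fin n → ℝ) (B : Fin n → Fin n → EE N)
    (τ : Fin n → Fin n → Fin n → ℝ) (θ : Fin n → Fin n → Fin n → EE N) (k i j : Fin n) : ℝ :=
  Vt m τ k i j - ((1 - l) / l) * inner ℝ (B i j) (wv θ k)

theorem sumU (l : ℝ) (m : Fin n → Fin n → ℝ) (B : Fin n → Fin n → EE N)
    (τ : Fin n → Fin n → Fin n → ℝ) (θ : Fin n → Fin n → Fin n → EE N) :
    ∑ k, ∑ i, ∑ j, ‖Um l m B τ θ k i j‖ ^ 2
      = Uq B τ θ - 2 * (1 - l) * Umw m B τ θ + (1 - l) ^ 2 * (Helper35.PI.sq m * wq θ) := by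
  rw [sqwq]
  unfold Uq Umw Um
  simp only [Finset.mul_sum, ← Finset.sum_sub_distrib, ← Finset.sum_add_distrib]
  refine Finset.sum_congr rfl fun k _ => Finset.sum_congr rfl fun i _ =>
    Finset.sum_congr rfl fun j _ => ?_
  have h1 : ‖((1 - l) * m i j) • wv θ k‖ ^ 2 = (1 - l) ^ 2 * (m i j ^ 2 * ‖wv θ k‖ ^ 2) := by
    rw [norm_smul, mul_pow, Real.norm_eq_abs, sq_abs]; ring
  rw [norm_sub_sq_real, inner_smul_right, h1]
  ring

theorem sumV (l : ℝ) (m : Fin n → Fin n → ℝ) (B : Fin n → Fin n → EE N)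
    (τ : Fin n → Fin n → Fin n → ℝ) (θ : Fin n → Fin n → Fin n → EE N) :
    ∑ k, ∑ i, ∑ j, ‖Vm l m B τ θ k i j‖ ^ 2
      = Vq m τ - 2 * ((1 - l) / l) * VBw m B τ θ + ((1 - l) / l) ^ 2 * Bw B θ := by
  unfold Vq VBw Bw Vm
  simp only [Finset.mul_sum, ← Finset.sum_sub_distrib, ← Finset.sum_add_distrib]
  refine Finset.sum_congr rfl fun k _ => Finset.sum_congr rfl fun i _ =>
    Finset.sum_congr rfl fun j _ => ?_
  rw [Real.norm_eq_abs, sq_abs]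
  ring

theorem Bw_le (B : Fin n → Fin n → EE N) (θ : Fin n → Fin n → Fin n → EE N) :
    Bw B θ ≤ rq B * wq θ := by
  have h : rq B * wq θ = ∑ k, ∑ i, ∑ j, ‖B i j‖ ^ 2 * ‖wv θ k‖ ^ 2 := by
    unfold rq wq
    rw [Finset.mul_sum]
    refine Finset.sum_congr rfl fun k _ => ?_
    rw [Finset.sum_mul]
    refine Finset.sum_congr rfl fun i _ => ?_
    rw [Finset.sum_mul]
  rw [h]
  unfold Bw
  refine Finset.sum_le_sum fun k _ => Finset.sum_le_sum fun i _ =>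
    Finset.sum_le_sum fun j _ => ?_
  rw [← mul_pow]
  exact sq_le_sq' (by linarith [abs_le.1 (abs_real_inner_le_norm (B i j) (wv θ k))])
    (real_inner_le_norm _ _)

theorem Bw_nonneg (B : Fin n → Fin n → EE N) (θ : Fin n → Fin n → Fin n → EE N) :
    0 ≤ Bw B θ := by
  unfold Bw
  exact Finset.sum_nonneg fun k _ => Finset.sum_nonneg fun i _ =>
    Finset.sum_nonneg fun j _ => sq_nonneg _

theorem wq_nonneg (θ : Fin n → Fin n → Fin n → EE N) : 0 ≤ wq θ :=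
  Finset.sum_nonneg fun k _ => sq_nonneg _

theorem sq_nonneg' (m : Fin n → Fin n → ℝ) : 0 ≤ Helper35.PI.sq m :=
  Finset.sum_nonneg fun k _ => Finset.sum_nonneg fun _ _ => sq_nonneg _

theorem Um_sym (l : ℝ) {m : Fin n → Fin n → ℝ} {B : Fin n → Fin n → EE N}
    {τ : Fin n → Fin n → Fin n → ℝ} {θ : Fin n → Fin n → Fin n → EE N}
    (hm : SymS m) (hB : SymV B) (hθ : Sym3V θ) (k i j : Fin n) :
    Um l m B τ θ k i j = Um l m B τ θ k j i := by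
  unfold Um Ut dl
  rw [hm i j, hB i j, hθ.2 k i j]
  simp only [eq_comm]

theorem Vm_sym (l : ℝ) {m : Fin n → Fin n → ℝ} {B : Fin n → Fin n → EE N}
    {τ : Fin n → Fin n → Fin n → ℝ} {θ : Fin n → Fin n → Fin n → EE N}
    (hm : SymS m) (hB : SymV B) (hτ : Sym3S τ) (k i j : Fin n) :
    Vm l m B τ θ k i j = Vm l m B τ θ k j i := by
  unfold Vm Vt dl
  rw [hm i j, hB i j, hτ.2 k i j]
  simp only [eq_comm]

theorem dl_sum (hn : 2 ≤ n) : ∑ i : Fin n, dl i i = (1 : ℝ) := by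
  unfold dl
  simp only [if_true, Finset.sum_const, Finset.card_univ, Fintype.card_fin, nsmul_eq_mul]
  have : (n : ℝ) ≠ 0 := by positivity
  field_simp

theorem Um_tr (l : ℝ) (hn : 2 ≤ n) {m : Fin n → Fin n → ℝ} {B : Fin n → Fin n → EE N}
    {τ : Fin n → Fin n → Fin n → ℝ} {θ : Fin n → Fin n → Fin n → EE N}
    (hm : TrS m) (hB : TrV B) (k : Fin n) :
    ∑ i, Um l m B τ θ k i i = 0 := by
  unfold Um Ut
  simp only [Finset.sum_sub_distrib, ← Finset.smul_sum, ← Finset.sum_smul, ← Finset.mul_sum]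
  have h1 : ∑ i, m i i = 0 := hm
  have h2 : ∑ i, B i i = 0 := hB
  rw [h1, h2, dl_sum hn]
  simp [wv]

theorem Vm_tr (l : ℝ) (hn : 2 ≤ n) {m : Fin n → Fin n → ℝ} {B : Fin n → Fin n → EE N}
    {τ : Fin n → Fin n → Fin n → ℝ} {θ : Fin n → Fin n → Fin n → EE N}
    (hm : TrS m) (hB : TrV B) (k : Fin n) :
    ∑ i, Vm l m B τ θ k i i = 0 := by
  unfold Vm Vt
  simp only [Finset.sum_sub_distrib, ← Finset.sum_mul, ← Finset.mul_sum, ← sum_inner]
  have h1 : ∑ i, m i i = 0 := hm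
  have h2 : ∑ i, B i i = 0 := hB
  rw [h1, h2, dl_sum hn]
  simp [yv]

theorem dl_smul (w : Fin n → EE N) (j : Fin n) : ∑ k, dl k j • w k = ((1 : ℝ) / n) • w j := by
  unfold dl
  simp [ite_smul]

theorem dl_mul (w : Fin n → ℝ) (j : Fin n) : ∑ k, dl k j * w k = ((1 : ℝ) / n) * w j := by
  unfold dl
  simp [ite_mul]

theorem Um_div (l : ℝ) (hn : 2 ≤ n) {m : Fin n → Fin n → ℝ} {B : Fin n → Fin n → EE N}
    {τ : Fin n → Fin n → Fin n → ℝ} {θ : Fin n → Fin n → Fin n → EE N}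
    (hm : SymS m) (hB : SymV B) (hθ : Sym3V θ) (j : Fin n) :
    (((n : ℝ) - 1) / n) • wv θ j = ∑ k, Um l m B τ θ k k j + ∑ k, yv τ k • B j k
      + (1 - l) • ∑ k, m j k • wv θ k := by
  unfold Um Ut
  simp only [Finset.sum_sub_distrib, dl_smul]
  have h1 : ∑ k, θ k k j = wv θ j := by
    unfold wv
    refine Finset.sum_congr rfl fun k _ => ?_
    rw [hθ.2 k k j, hθ.1 k j k]
  have h2 : ∑ k, yv τ k • B k j = ∑ k, yv τ k • B j k :=
    Finset.sum_congr rfl fun k _ => by rw [hB k j]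
  have h3 : ∑ k, ((1 - l) * m k j) • wv θ k = (1 - l) • ∑ k, m j k • wv θ k := by
    rw [Finset.smul_sum]
    refine Finset.sum_congr rfl fun k _ => ?_
    rw [hm k j, smul_smul]
  rw [h1, h2, h3]
  have hn0 : (n : ℝ) ≠ 0 := by positivity
  have h4 : (((n : ℝ) - 1) / n) = 1 - 1 / n := by field_simp
  rw [h4, sub_smul, one_smul]
  abel

theorem Vm_div (l : ℝ) (hn : 2 ≤ n) {m : Fin n → Fin n → ℝ} {B : Fin n → Fin n → EE N}
    {τ : Fin n → Fin n → Fin n → ℝ} {θ : Fin n → Fin n → Fin n → EE N}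
    (hm : SymS m) (hB : SymV B) (hτ : Sym3S τ) (j : Fin n) :
    (((n : ℝ) - 1) / n) • yv τ j = ∑ k, Vm l m B τ θ k k j + ∑ k, m j k • yv τ k
      + ((1 - l) / l) • ∑ k, inner ℝ (B j k) (wv θ k) := by
  unfold Vm Vt
  simp only [Finset.sum_sub_distrib, dl_mul, smul_eq_mul]
  have h1 : ∑ k, τ k k j = yv τ j := by
    unfold yv
    refine Finset.sum_congr rfl fun k _ => ?_
    rw [hτ.2 k k j, hτ.1 k j k]
  have h2 : ∑ k, m k j * yv τ k = ∑ k, m j k * yv τ k :=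
    Finset.sum_congr rfl fun k _ => by rw [hm k j]
  have h3 : ∑ k, (1 - l) / l * inner ℝ (B k j) (wv θ k)
      = (1 - l) / l * ∑ k, inner ℝ (B j k) (wv θ k) := by
    rw [Finset.mul_sum]
    refine Finset.sum_congr rfl fun k _ => ?_
    rw [hB k j]
  rw [h1, h2, h3]
  have hn0 : (n : ℝ) ≠ 0 := by positivity
  have h4 : (((n : ℝ) - 1) / n) = 1 - 1 / n := by field_simp
  rw [h4]
  ring

theorem kn_pos (hn : 2 ≤ n) : 0 < kn n := by
  unfold kn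
  have : (2 : ℝ) ≤ n := by exact_mod_cast hn
  have h1 : 0 < (n : ℝ) - 1 := by linarith
  positivity

/-- the final scalar estimate -/
theorem fin_scalar (s r l κ κ₁ c T w b U V G : ℝ) (hs : 0 ≤ s) (hr : 0 < r) (hsr : s + r ≤ κ₁)
    (hd : κ₁ < κ) (hκ0 : 0 < κ) (hl : l = r / (κ - s)) (hc1 : 1 < c) (hw : 0 ≤ w)
    (hBw : b ≤ r * w) (hT0 : 0 ≤ T)
    (key : c * ((l ^ 2 * s + (κ - s)) * w) ≤ T)
    (hG : G = T - ((1 - l) / l) * b - (l ^ 2 * s + r) * w)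
    (hUV : U + l * V ≤ 2 * T + 2 * (κ * w)) :
    (1 - 1 / c) / (2 + 2 * κ / (κ - κ₁)) * (U + l * V) ≤ G := by
  have hd' : 0 < κ - κ₁ := by linarith
  have hks : 0 < κ - s := by linarith
  have hl0 : 0 < l := by rw [hl]; exact div_pos hr hks
  have hl1 : l < 1 := by rw [hl, div_lt_one hks]; linarith
  have hrl : r / l = κ - s := by
    rw [hl]; field_simp
  have hl2' : 0 ≤ (1 - l) / l := div_nonneg (by linarith) hl0.le
  have hc' : 0 < c := by linarith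
  have hC0 : 0 < 2 + 2 * κ / (κ - κ₁) := by positivity
  have hc0 : 0 < 1 - 1 / c := by
    have : 1 / c < 1 := by rw [div_lt_one (by linarith)]; exact hc1
    linarith
  have hG2 : T - (l ^ 2 * s + (κ - s)) * w ≤ G := by
    rw [hG]
    have h5 : ((1 - l) / l) * b ≤ ((1 - l) / l) * (r * w) :=
      mul_le_mul_of_nonneg_left hBw hl2'
    have h6 : ((1 - l) / l) * (r * w) = (κ - s) * w - r * w := by
      rw [← hrl]; field_simp
    linarith
  have hG3 : (1 - 1 / c) * T ≤ G := by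
    have : (l ^ 2 * s + (κ - s)) * w ≤ 1 / c * T := by
      rw [div_mul_eq_mul_div, one_mul, le_div_iff₀ hc']
      linarith
    linarith
  have hx0 : 0 ≤ l ^ 2 * s := mul_nonneg (sq_nonneg _) hs
  have hwT : (κ - κ₁) * w ≤ T := by
    have h7 : (κ - κ₁) * w ≤ (l ^ 2 * s + (κ - s)) * w :=
      mul_le_mul_of_nonneg_right (by linarith) hw
    have h8 : 0 ≤ (l ^ 2 * s + (κ - s)) * w := mul_nonneg (by linarith) hw
    nlinarith
  have hsum : U + l * V ≤ (2 + 2 * κ / (κ - κ₁)) * T := by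
    have h14 : κ * w ≤ κ / (κ - κ₁) * T := by
      rw [div_mul_eq_mul_div, le_div_iff₀ hd']
      nlinarith
    have h15 : (2 + 2 * κ / (κ - κ₁)) * T = 2 * T + 2 * (κ / (κ - κ₁) * T) := by ring
    rw [h15]
    linarith
  refine le_trans ?_ hG3
  have hfin := mul_le_mul_of_nonneg_left hsum
    (show 0 ≤ (1 - 1 / c) / (2 + 2 * κ / (κ - κ₁)) from (div_pos hc0 hC0).le)
  refine hfin.trans (le_of_eq ?_)
  rw [← mul_assoc, div_mul_cancel₀ _ hC0.ne']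

theorem Uq_le (l : ℝ) (h0 : 0 ≤ l) (h1 : l ≤ 1) (m : Fin n → Fin n → ℝ)
    (B : Fin n → Fin n → EE N)
    (τ : Fin n → Fin n → Fin n → ℝ) (θ : Fin n → Fin n → Fin n → EE N) :
    Uq B τ θ ≤ 2 * ∑ k, ∑ i, ∑ j, ‖Um l m B τ θ k i j‖ ^ 2
      + 2 * (Helper35.PI.sq m * wq θ) := by
  rw [sqwq]
  unfold Uq
  simp only [Finset.mul_sum, ← Finset.sum_add_distrib]
  refine Finset.sum_le_sum fun k _ => Finset.sum_le_sum fun i _ =>
    Finset.sum_le_sum fun j _ => ?_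
  have e : Ut B τ θ k i j = Um l m B τ θ k i j + ((1 - l) * m i j) • wv θ k := by
    unfold Um; abel
  have n1 : ‖Ut B τ θ k i j‖ ≤ ‖Um l m B τ θ k i j‖ + ‖((1 - l) * m i j) • wv θ k‖ := by
    rw [e]; exact norm_add_le _ _
  have n2 : ‖((1 - l) * m i j) • wv θ k‖ ^ 2 = (1 - l) ^ 2 * (m i j ^ 2 * ‖wv θ k‖ ^ 2) := by
    rw [norm_smul, mul_pow, Real.norm_eq_abs, sq_abs]; ring
  have n3 : (1 - l) ^ 2 ≤ 1 := by nlinarith
  have n4 : 0 ≤ m i j ^ 2 * ‖wv θ k‖ ^ 2 := by positivity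
  have n5 := norm_nonneg (Ut B τ θ k i j)
  generalize ‖Ut B τ θ k i j‖ = x at *
  generalize ‖Um l m B τ θ k i j‖ = y at *
  generalize ‖((1 - l) * m i j) • wv θ k‖ = z at *
  have n6 : x ^ 2 ≤ (y + z) ^ 2 := by nlinarith
  have n7 : (y + z) ^ 2 ≤ 2 * y ^ 2 + 2 * z ^ 2 := by nlinarith [sq_nonneg (y - z)]
  have n8 : z ^ 2 ≤ m i j ^ 2 * ‖wv θ k‖ ^ 2 := by
    rw [n2]; exact mul_le_of_le_one_left n4 n3
  linarith

theorem Vq_le (l : ℝ) (m : Fin n → Fin n → ℝ) (B : Fin n → Fin n → EE N)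
    (τ : Fin n → Fin n → Fin n → ℝ) (θ : Fin n → Fin n → Fin n → EE N) :
    Vq m τ ≤ 2 * ∑ k, ∑ i, ∑ j, ‖Vm l m B τ θ k i j‖ ^ 2
      + 2 * ((1 - l) / l) ^ 2 * Bw B θ := by
  unfold Vq Bw
  simp only [Finset.mul_sum, ← Finset.sum_add_distrib]
  refine Finset.sum_le_sum fun k _ => Finset.sum_le_sum fun i _ =>
    Finset.sum_le_sum fun j _ => ?_
  have e : Vt m τ k i j = Vm l m B τ θ k i j + ((1 - l) / l) * inner ℝ (B i j) (wv θ k) := by
    unfold Vm; ring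
  rw [e, Real.norm_eq_abs, sq_abs]
  nlinarith [sq_nonneg (Vm l m B τ θ k i j - ((1 - l) / l) * inner ℝ (B i j) (wv θ k))]

/-- upper bound of `|U|^2 + l |V|^2`, scalar part -/
theorem up_scalar (s r l κ TU TV w b U V : ℝ) (hr : 0 < r) (hks : 0 < κ - s)
    (hl : l = r / (κ - s)) (hl1 : l < 1) (hb0 : 0 ≤ b) (hw : 0 ≤ w)
    (hBw : b ≤ r * w) (hU : U ≤ 2 * TU + 2 * (s * w))
    (hV : V ≤ 2 * TV + 2 * ((1 - l) / l) ^ 2 * b) :
    U + l * V ≤ 2 * (TU + l * TV) + 2 * (κ * w) := by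
  have hl0 : 0 < l := by rw [hl]; exact div_pos hr hks
  have hrl' : r = l * (κ - s) := by
    rw [hl]; field_simp
  have h9 : l * (((1 - l) / l) ^ 2 * b) ≤ (κ - s) * w := by
    have h10 : l * (((1 - l) / l) ^ 2 * b) = (1 - l) ^ 2 * (b / l) := by
      field_simp
    have h11 : b / l ≤ (κ - s) * w := by
      rw [div_le_iff₀ hl0]
      calc b ≤ r * w := hBw
        _ = (κ - s) * w * l := by rw [hrl']; ring
    have h12 : 0 ≤ b / l := div_nonneg hb0 hl0.le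
    have h13 : (1 - l) ^ 2 ≤ 1 := by nlinarith
    rw [h10]
    exact (mul_le_of_le_one_left h12 h13).trans h11
  have := mul_le_mul_of_nonneg_left hV hl0.le
  have h16 : l * (2 * TV + 2 * ((1 - l) / l) ^ 2 * b)
      = 2 * (l * TV) + 2 * (l * (((1 - l) / l) ^ 2 * b)) := by ring
  linarith

/-- the two applications of `VP`, `OP1`-`OP3` and `SI` -/
theorem key_ineq (hV : StVP) (h1 : StOP1) (h2 : StOP2) (h3 : StOP3) (hS : StSI)
    (hn : 2 ≤ n) (m : Fin n → Fin n → ℝ) (B : Fin n → Fin n → EE N)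
    (τ : Fin n → Fin n → Fin n → ℝ) (θ : Fin n → Fin n → Fin n → EE N)
    (hmS : SymS m) (hmT : TrS m) (hBS : SymV B) (hBT : TrV B) (hτ : Sym3S τ) (hθ : Sym3V θ)
    (s r l : ℝ) (hsd : s = Helper35.PI.sq m) (hrd : r = rq B)
    (hr : 0 < r) (hsr : s + r < kn n) (hl : l = r / (kn n - s)) :
    ((n : ℝ) + 6) ^ 2 / ((n + 2) * (n + 10)) * ((l ^ 2 * s + (kn n - s)) * wq θ)
      ≤ (∑ k, ∑ i, ∑ j, ‖Um l m B τ θ k i j‖ ^ 2)
        + l * ∑ k, ∑ i, ∑ j, ‖Vm l m B τ θ k i j‖ ^ 2 := by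
  have hn2 : (2 : ℝ) ≤ n := by exact_mod_cast hn
  have hs : 0 ≤ s := hsd ▸ sq_nonneg' m
  have hw := wq_nonneg θ
  have hks : 0 < kn n - s := by linarith
  have hl0 : 0 < l := by rw [hl]; exact div_pos hr hks
  have hl1 : l < 1 := by rw [hl, div_lt_one hks]; linarith
  have vU := hV n hn (EE N) (Um l m B τ θ) (fun k i j => Um_sym l hmS hBS hθ k i j)
    (fun k => Um_tr l hn hmT hBT k)
  have vV := hV n hn ℝ (Vm l m B τ θ) (fun k i j => Vm_sym l hmS hBS hτ k i j)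
    (fun k => Vm_tr l hn hmT hBT k)
  generalize (∑ k, ∑ i, ∑ j, ‖Um l m B τ θ k i j‖ ^ 2) = TU at *
  generalize (∑ k, ∑ i, ∑ j, ‖Vm l m B τ θ k i j‖ ^ 2) = TV at *
  have hp0 : 0 ≤ ((n : ℝ) - 1) / n := div_nonneg (by linarith) (by linarith)
  have o1 := h1 n hn (EE N) B hBS hBT (yv τ)
  have o2 := h2 n hn (EE N) B hBS hBT (wv θ)
  have o3 := h3 n hn (EE N) m hmS hmT (wv θ)
  have o4 := h3 n hn ℝ m hmS hmT (yv τ)
  have e1 := l2tri (fun j => ∑ k, Um l m B τ θ k k j) (fun j => ∑ k, yv τ k • B j k)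
    (fun j => (1 - l) • ∑ k, m j k • wv θ k) (fun j => (((n : ℝ) - 1) / n) • wv θ j)
    (fun j => Um_div l hn hmS hBS hθ j)
  have e2 := l2tri (fun j => ∑ k, Vm l m B τ θ k k j) (fun j => ∑ k, m j k • yv τ k)
    (fun j => ((1 - l) / l) • ∑ k, (inner ℝ (B j k) (wv θ k) : ℝ))
    (fun j => (((n : ℝ) - 1) / n) • yv τ j)
    (fun j => Vm_div l hn hmS hBS hτ j)
  have hl1' : 0 ≤ 1 - l := by linarith
  have hl2' : 0 ≤ (1 - l) / l := div_nonneg hl1' hl0.le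
  rw [sqrt_sum_smul _ hp0, sqrt_sum_smul _ hl1'] at e1
  rw [sqrt_sum_smul _ hp0, sqrt_sum_smul _ hl2'] at e2
  have hY : √(yq τ) = √(∑ j, ‖yv τ j‖ ^ 2) := by
    unfold yq
    simp only [Real.norm_eq_abs, sq_abs]
  have hWd : √(wq θ) = √(∑ j, ‖wv θ j‖ ^ 2) := rfl
  have hrd' : ∑ i, ∑ j, ‖B i j‖ ^ 2 = r := hrd.symm
  have hsd' : ∑ i, ∑ j, m i j ^ 2 = s := hsd.symm
  rw [hrd'] at o1 o2
  rw [hsd'] at o3 o4
  generalize hp : ((n : ℝ) - 1) / n = p at *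
  have hps : 0 ≤ p * s := mul_nonneg hp0 hs
  have hpr : 0 ≤ p * r := mul_nonneg hp0 hr.le
  have hα : √(p * s) ^ 2 = p * s := Real.sq_sqrt hps
  have hb : √(p * r) ^ 2 = p * r := Real.sq_sqrt hpr
  have hW : √(wq θ) ^ 2 = wq θ := Real.sq_sqrt hw
  have b1 : √(∑ j, ‖∑ k, yv τ k • B j k‖ ^ 2) ≤ √(p * r) * √(yq τ) := by
    rw [← Real.sqrt_mul hpr]
    exact Real.sqrt_le_sqrt o1
  have b3 : √(∑ j, ‖∑ k, m j k • wv θ k‖ ^ 2) ≤ √(p * s) * √(wq θ) := by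
    rw [← Real.sqrt_mul hps]
    exact Real.sqrt_le_sqrt o3
  have b4 : √(∑ j, ‖∑ k, m j k • yv τ k‖ ^ 2) ≤ √(p * s) * √(yq τ) := by
    rw [hY, ← Real.sqrt_mul hps]
    exact Real.sqrt_le_sqrt o4
  have b2 : √(∑ j, ‖∑ k, (inner ℝ (B j k) (wv θ k) : ℝ)‖ ^ 2) ≤ √(p * r) * √(wq θ) := by
    rw [← Real.sqrt_mul hpr]
    refine Real.sqrt_le_sqrt ?_
    simp only [Real.norm_eq_abs, sq_abs]
    exact o2
  have si := hS n hn s r l (√(p * s)) (√(p * r)) (√(wq θ)) (√(yq τ))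
    (√(∑ j, ‖∑ k, Um l m B τ θ k k j‖ ^ 2)) (√(∑ j, ‖∑ k, Vm l m B τ θ k k j‖ ^ 2))
    hs hr hsr hl (Real.sqrt_nonneg _) (hp ▸ hα) (Real.sqrt_nonneg _) (hp ▸ hb)
    (Real.sqrt_nonneg _) (Real.sqrt_nonneg _) (Real.sqrt_nonneg _) (Real.sqrt_nonneg _)
    (by
      rw [← hWd] at e1
      have := mul_le_mul_of_nonneg_left b3 hl1'
      rw [hp]
      linarith)
    (by
      rw [← hY] at e2
      have := mul_le_mul_of_nonneg_left b2 hl2'
      rw [hp]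
      linarith)
  rw [hW, Real.sq_sqrt (Finset.sum_nonneg fun _ _ => sq_nonneg _),
    Real.sq_sqrt (Finset.sum_nonneg fun _ _ => sq_nonneg _)] at si
  refine si.trans ?_
  have := mul_le_mul_of_nonneg_left vV hl0.le
  linarith

theorem hR1 (hV : StVP) (h1 : StOP1) (h2 : StOP2) (h3 : StOP3) (hS : StSI) : StR1 := by
  intro n N hn κ₁ hκ
  have hn2 : (2 : ℝ) ≤ n := by exact_mod_cast hn
  have hκ0 := kn_pos hn
  have hd : 0 < kn n - κ₁ := by linarith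
  have hden : 0 < ((n : ℝ) + 2) * (n + 10) := by positivity
  have hc1 : 1 < ((n : ℝ) + 6) ^ 2 / ((n + 2) * (n + 10)) := by
    rw [lt_div_iff₀ hden]
    nlinarith
  have hC0 : 0 < 2 + 2 * kn n / (kn n - κ₁) := by positivity
  have hc0 : 0 < 1 - 1 / (((n : ℝ) + 6) ^ 2 / ((n + 2) * (n + 10))) := by
    have : 1 / (((n : ℝ) + 6) ^ 2 / ((n + 2) * (n + 10))) < 1 := by
      rw [div_lt_one (by linarith)]; exact hc1
    linarith
  refine ⟨(1 - 1 / (((n : ℝ) + 6) ^ 2 / ((n + 2) * (n + 10))))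
    / (2 + 2 * kn n / (kn n - κ₁)), div_pos hc0 hC0, ?_⟩
  intro m B τ θ hmS hmT hBS hBT hτ hθ hr hsr l hl
  have hs := sq_nonneg' m
  have hw := wq_nonneg θ
  have hks : 0 < kn n - Helper35.PI.sq m := by linarith
  have hl0 : 0 < l := by rw [hl]; exact div_pos hr hks
  have hl1 : l < 1 := by rw [hl, div_lt_one hks]; linarith
  have key := key_ineq hV h1 h2 h3 hS hn m B τ θ hmS hmT hBS hBT hτ hθ _ _ l rfl rfl hr
    (by linarith) hl
  have eU := sumU l m B τ θ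
  have eV := sumV l m B τ θ
  have hU := Uq_le l hl0.le hl1.le m B τ θ
  have hVq := Vq_le l m B τ θ
  have hBw := Bw_le B θ
  have hBw0 := Bw_nonneg B θ
  have hTU0 : 0 ≤ ∑ k, ∑ i, ∑ j, ‖Um l m B τ θ k i j‖ ^ 2 :=
    Finset.sum_nonneg fun _ _ => Finset.sum_nonneg fun _ _ =>
    Finset.sum_nonneg fun _ _ => sq_nonneg _
  have hTV0 : 0 ≤ ∑ k, ∑ i, ∑ j, ‖Vm l m B τ θ k i j‖ ^ 2 :=
    Finset.sum_nonneg fun _ _ => Finset.sum_nonneg fun _ _ =>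
    Finset.sum_nonneg fun _ _ => sq_nonneg _
  generalize (∑ k, ∑ i, ∑ j, ‖Um l m B τ θ k i j‖ ^ 2) = TU at *
  generalize (∑ k, ∑ i, ∑ j, ‖Vm l m B τ θ k i j‖ ^ 2) = TV at *
  have hG : Gq l m B τ θ = (TU + l * TV) - ((1 - l) / l) * Bw B θ
      - (l ^ 2 * Helper35.PI.sq m + rq B) * wq θ := by
    unfold Gq
    rw [eU, eV]
    generalize Uq B τ θ = a1
    generalize Vq m τ = a2
    generalize Umw m B τ θ = a3
    generalize VBw m B τ θ = a4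
    generalize Bw B θ = a5
    generalize rq B = a6
    generalize Helper35.PI.sq m = a7
    generalize wq θ = a8
    field_simp
    ring
  rw [zero_div, zero_mul, add_zero]
  exact fin_scalar (Helper35.PI.sq m) (rq B) l (kn n) κ₁ _ (TU + l * TV) (wq θ) (Bw B θ)
    (Uq B τ θ) (Vq m τ) _ hs hr hsr hκ hκ0 hl hc1 hw hBw
    (add_nonneg hTU0 (mul_nonneg hl0.le hTV0)) key hG
    (up_scalar (Helper35.PI.sq m) (rq B) l (kn n) TU TV (wq θ) (Bw B θ) (Uq B τ θ) (Vq m τ)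
      hr hks hl hl1 hBw0 hw hBw hU hVq)

end Helper14.PI
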